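import Mathlib
import Pool.Agent.MP_03af62_an.Defs

section

/-! Existence of the travelling profile by a contraction argument. -/

open Set

namespace Pool.Agent.MP_03af62_an

noncomputable def prim (f : ℝ → ℝ) (s : ℝ) : ℝ := ∫ u in (0 : ℝ)..s, f u

theorem prim_hasDerivAt {f : ℝ → ℝ} (hf : Continuous f) (s : ℝ) : HasDerivAt (prim f) (f s) s :=
  (hf.integral_hasStrictDerivAt 0 s).hasDerivAt

theorem prim_continuous {f : ℝ → ℝ} (hf : Continuous f) : Continuous (prim f) :=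
  continuous_iff_continuousAt.2 fun s => (prim_hasDerivAt hf s).continuousAt

theorem prim_zero (f : ℝ → ℝ) : prim f 0 = 0 := by simp [prim]

theorem prim_neg_of_odd {f : ℝ → ℝ} (h : ∀ s, f (-s) = -f s) (s : ℝ) : prim f (-s) = prim f s := by
  unfold prim
  have h1 := intervalIntegral.integral_comp_neg (a := 0) (b := s) f
  simp only [h, intervalIntegral.integral_neg, neg_zero] at h1
  rw [intervalIntegral.integral_symm]
  linarith

theorem prim_neg_of_even {f : ℝ → ℝ} (h : ∀ s, f (-s) = f s) (s : ℝ) :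
    prim f (-s) = -prim f s := by
  unfold prim
  have h1 := intervalIntegral.integral_comp_neg (a := 0) (b := s) f
  simp only [h, neg_zero] at h1
  rw [intervalIntegral.integral_symm]
  linarith

theorem abs_prim_le {f : ℝ → ℝ} {D : ℝ} (h : ∀ u ∈ Icc (-1 : ℝ) 1, |f u| ≤ D) {s : ℝ}
    (hs : s ∈ Icc (-1 : ℝ) 1) : |prim f s| ≤ D := by
  have hD : 0 ≤ D := (abs_nonneg _).trans (h 0 (by norm_num))
  have h1 : ‖∫ u in (0 : ℝ)..s, f u‖ ≤ D * |s - 0| := by
    apply intervalIntegral.norm_integral_le_of_norm_le_const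
    intro x hx
    apply h
    rcases le_total 0 s with h0 | h0
    · rw [uIoc_of_le h0] at hx
      exact ⟨by linarith [hx.1], hx.2.trans hs.2⟩
    · rw [uIoc_of_ge h0] at hx
      exact ⟨by linarith [hx.1, hs.1], by linarith [hx.2]⟩
  have h2 : |s - 0| ≤ 1 := by rw [sub_zero]; exact abs_le.2 hs
  calc |prim f s| ≤ D * |s - 0| := h1
    _ ≤ D * 1 := by gcongr
    _ = D := mul_one D

theorem abs_prim_sub_le {f g : ℝ → ℝ} (hf : Continuous f) (hg : Continuous g) {D : ℝ}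
    (h : ∀ u ∈ Icc (-1 : ℝ) 1, |f u - g u| ≤ D) {s : ℝ} (hs : s ∈ Icc (-1 : ℝ) 1) :
    |prim f s - prim g s| ≤ D := by
  have : prim f s - prim g s = prim (fun u => f u - g u) s := by
    unfold prim
    rw [intervalIntegral.integral_sub (hf.intervalIntegrable _ _) (hg.intervalIntegrable _ _)]
  rw [this]
  exact abs_prim_le h hs

noncomputable def fA (ψ : ℝ → ℝ) : ℝ → ℝ := prim fun u => Real.cos (ψ u) ^ 2
noncomputable def fH (ψ : ℝ → ℝ) : ℝ → ℝ := prim fun u => Real.sin (ψ u) * Real.cos (ψ u)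
noncomputable def fB (ψ : ℝ → ℝ) (s : ℝ) : ℝ := fH ψ 1 - fH ψ s
noncomputable def fg (ψ : ℝ → ℝ) (s : ℝ) : ℝ :=
  (1 / 40) * (fA ψ s * Real.cos (ψ s) - fB ψ s * Real.sin (ψ s))
noncomputable def fk (ψ : ℝ → ℝ) (s : ℝ) : ℝ := prim (fg ψ) s - prim (fg ψ) 1
noncomputable def fPhi (ψ : ℝ → ℝ) : ℝ → ℝ := prim (fk ψ)

section cont
variable {ψ : ℝ → ℝ} (hψ : Continuous ψ)
include hψ

theorem fA_cont : Continuous (fA ψ) := prim_continuous (by fun_prop)
theorem fH_cont : Continuous (fH ψ) := prim_continuous (by fun_prop)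
theorem fB_cont : Continuous (fB ψ) := continuous_const.sub (fH_cont hψ)
theorem fg_cont : Continuous (fg ψ) := by
  have h1 := fA_cont hψ
  have h2 := fB_cont hψ
  unfold fg
  fun_prop
theorem fk_cont : Continuous (fk ψ) := (prim_continuous (fg_cont hψ)).sub continuous_const
theorem fPhi_cont : Continuous (fPhi ψ) := prim_continuous (fk_cont hψ)

end cont

section odd
variable {ψ : ℝ → ℝ} (ho : ∀ s, ψ (-s) = -ψ s)
include ho

theorem fA_odd (s : ℝ) : fA ψ (-s) = -fA ψ s := prim_neg_of_even (fun u => by simp [ho]) s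
theorem fH_even (s : ℝ) : fH ψ (-s) = fH ψ s := prim_neg_of_odd (fun u => by simp [ho]) s
theorem fB_even (s : ℝ) : fB ψ (-s) = fB ψ s := by simp [fB, fH_even ho]
theorem fg_odd (s : ℝ) : fg ψ (-s) = -fg ψ s := by
  simp only [fg, fA_odd ho, fB_even ho, ho, Real.cos_neg, Real.sin_neg]; ring
theorem fk_even (s : ℝ) : fk ψ (-s) = fk ψ s := by
  simp only [fk, prim_neg_of_odd (fg_odd ho)]
theorem fPhi_odd (s : ℝ) : fPhi ψ (-s) = -fPhi ψ s := prim_neg_of_even (fk_even ho) s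

end odd

theorem one_mem : (1 : ℝ) ∈ Icc (-1 : ℝ) 1 := by norm_num

theorem abs_fA_le (ψ : ℝ → ℝ) {s : ℝ} (hs : s ∈ Icc (-1 : ℝ) 1) : |fA ψ s| ≤ 1 :=
  abs_prim_le (fun u _ => by
    rw [abs_of_nonneg (sq_nonneg _)]; exact Real.cos_sq_le_one _) hs

theorem abs_fB_le (ψ : ℝ → ℝ) {D : ℝ} (h : ∀ u ∈ Icc (-1 : ℝ) 1, |Real.sin (ψ u)| ≤ D) {s : ℝ}
    (hs : s ∈ Icc (-1 : ℝ) 1) : |fB ψ s| ≤ 2 * D := by
  have key : ∀ s ∈ Icc (-1 : ℝ) 1, |fH ψ s| ≤ D := fun s hs =>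
    abs_prim_le (fun u hu => by
      rw [abs_mul]
      calc |Real.sin (ψ u)| * |Real.cos (ψ u)| ≤ D * 1 :=
            mul_le_mul (h u hu) (Real.abs_cos_le_one _) (abs_nonneg _)
              ((abs_nonneg _).trans (h u hu))
        _ = D := mul_one D) hs
  have h1 := abs_le.1 (key 1 one_mem)
  have h2 := abs_le.1 (key s hs)
  unfold fB
  rw [abs_le]; constructor <;> linarith [h1.1, h1.2, h2.1, h2.2]

theorem abs_fg_le (ψ : ℝ → ℝ) {s : ℝ} (hs : s ∈ Icc (-1 : ℝ) 1) : |fg ψ s| ≤ 3 / 40 := by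
  have h1 := abs_fA_le ψ hs
  have h2 := abs_fB_le ψ (D := 1) (fun u _ => Real.abs_sin_le_one _) hs
  have h3 : |fA ψ s * Real.cos (ψ s)| ≤ 1 := by
    rw [abs_mul]
    calc _ ≤ 1 * 1 := mul_le_mul h1 (Real.abs_cos_le_one _) (abs_nonneg _) zero_le_one
      _ = 1 := one_mul 1
  have h4 : |fB ψ s * Real.sin (ψ s)| ≤ 2 := by
    rw [abs_mul]
    calc _ ≤ (2 * 1) * 1 := mul_le_mul h2 (Real.abs_sin_le_one _) (abs_nonneg _) (by norm_num)
      _ = 2 := by norm_num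
  have h3' := abs_le.1 h3
  have h4' := abs_le.1 h4
  unfold fg
  rw [abs_le]; constructor <;> linarith [h3'.1, h3'.2, h4'.1, h4'.2]

theorem abs_fk_le (ψ : ℝ → ℝ) {s : ℝ} (hs : s ∈ Icc (-1 : ℝ) 1) : |fk ψ s| ≤ 3 / 20 := by
  have h1 := abs_le.1 (abs_prim_le (fun u hu => abs_fg_le ψ hu) hs)
  have h2 := abs_le.1 (abs_prim_le (fun u hu => abs_fg_le ψ hu) one_mem)
  unfold fk
  rw [abs_le]; constructor <;> linarith [h1.1, h1.2, h2.1, h2.2]

theorem abs_fPhi_le (ψ : ℝ → ℝ) {s : ℝ} (hs : s ∈ Icc (-1 : ℝ) 1) : |fPhi ψ s| ≤ 3 / 20 :=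
  abs_prim_le (fun _ hu => abs_fk_le ψ hu) hs

theorem abs_mul_sub_mul_le {a b a' b' P Q R S : ℝ} (h1 : |a - a'| ≤ P) (h2 : |b| ≤ Q)
    (h3 : |a'| ≤ R) (h4 : |b - b'| ≤ S) : |a * b - a' * b'| ≤ P * Q + R * S := by
  have e : a * b - a' * b' = (a - a') * b + a' * (b - b') := by ring
  rw [e]
  refine (abs_add_le _ _).trans ?_
  rw [abs_mul, abs_mul]
  exact add_le_add (mul_le_mul h1 h2 (abs_nonneg _) ((abs_nonneg _).trans h1))
    (mul_le_mul h3 h4 (abs_nonneg _) ((abs_nonneg _).trans h3))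

theorem fPhi_lip {ψ χ : ℝ → ℝ} (hψ : Continuous ψ) (hχ : Continuous χ) {δ : ℝ}
    (h : ∀ u, |ψ u - χ u| ≤ δ) {s : ℝ} (hs : s ∈ Icc (-1 : ℝ) 1) :
    |fPhi ψ s - fPhi χ s| ≤ (1 / 2) * δ := by
  have hδ : 0 ≤ δ := (abs_nonneg _).trans (h 0)
  have hc : ∀ u, |Real.cos (ψ u) - Real.cos (χ u)| ≤ δ := fun u =>
    (Real.abs_cos_sub_cos_le _ _).trans (h u)
  have hsn : ∀ u, |Real.sin (ψ u) - Real.sin (χ u)| ≤ δ := fun u =>
    (Real.abs_sin_sub_sin_le _ _).trans (h u)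
  have hA : ∀ s ∈ Icc (-1 : ℝ) 1, |fA ψ s - fA χ s| ≤ 2 * δ := fun s hs =>
    abs_prim_sub_le (by fun_prop) (by fun_prop) (fun u _ => by
      have := abs_mul_sub_mul_le (hc u) (Real.abs_cos_le_one (ψ u)) (Real.abs_cos_le_one (χ u))
        (hc u)
      rw [sq, sq]; linarith) hs
  have hH : ∀ s ∈ Icc (-1 : ℝ) 1, |fH ψ s - fH χ s| ≤ 2 * δ := fun s hs =>
    abs_prim_sub_le (by fun_prop) (by fun_prop) (fun u _ => by
      have := abs_mul_sub_mul_le (hsn u) (Real.abs_cos_le_one (ψ u)) (Real.abs_sin_le_one (χ u))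
        (hc u)
      linarith) hs
  have hB : ∀ s ∈ Icc (-1 : ℝ) 1, |fB ψ s - fB χ s| ≤ 4 * δ := fun s hs => by
    have h1 := abs_le.1 (hH s hs)
    have h2 := abs_le.1 (hH 1 one_mem)
    unfold fB
    rw [abs_le]; constructor <;> linarith [h1.1, h1.2, h2.1, h2.2]
  have hg : ∀ s ∈ Icc (-1 : ℝ) 1, |fg ψ s - fg χ s| ≤ (9 / 40) * δ := fun s hs => by
    have h1 := abs_le.1 (abs_mul_sub_mul_le (hA s hs) (Real.abs_cos_le_one (ψ s))
      (abs_fA_le χ hs) (hc s))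
    have h2 := abs_le.1 (abs_mul_sub_mul_le (hB s hs) (Real.abs_sin_le_one (ψ s))
      (abs_fB_le χ (D := 1) (fun u _ => Real.abs_sin_le_one _) hs) (hsn s))
    unfold fg
    rw [abs_le]; constructor <;> linarith [h1.1, h1.2, h2.1, h2.2]
  have hk : ∀ s ∈ Icc (-1 : ℝ) 1, |fk ψ s - fk χ s| ≤ (1 / 2) * δ := fun s hs => by
    have h1 := abs_le.1 (abs_prim_sub_le (fg_cont hψ) (fg_cont hχ) hg hs)
    have h2 := abs_le.1 (abs_prim_sub_le (fg_cont hψ) (fg_cont hχ) hg one_mem)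
    unfold fk
    rw [abs_le]; constructor <;> linarith [h1.1, h1.2, h2.1, h2.2]
  exact abs_prim_sub_le (fk_cont hψ) (fk_cont hχ) hk hs

theorem neg_one_le_one : (-1 : ℝ) ≤ 1 := by norm_num

noncomputable def oddExt (f : C(Icc (-1 : ℝ) 1, ℝ)) (s : ℝ) : ℝ :=
  (f (projIcc (-1) 1 neg_one_le_one s) - f (projIcc (-1) 1 neg_one_le_one (-s))) / 2

theorem oddExt_cont (f : C(Icc (-1 : ℝ) 1, ℝ)) : Continuous (oddExt f) := by
  unfold oddExt
  have h1 : Continuous (projIcc (-1 : ℝ) 1 neg_one_le_one) := continuous_projIcc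
  have h2 := f.continuous
  fun_prop

theorem oddExt_odd (f : C(Icc (-1 : ℝ) 1, ℝ)) (s : ℝ) : oddExt f (-s) = -oddExt f s := by
  unfold oddExt
  rw [neg_neg]; ring

theorem oddExt_lip (f g : C(Icc (-1 : ℝ) 1, ℝ)) (s : ℝ) :
    |oddExt f s - oddExt g s| ≤ dist f g := by
  have h1 := ContinuousMap.dist_apply_le_dist (f := f) (g := g) (projIcc (-1) 1 neg_one_le_one s)
  have h2 :=
    ContinuousMap.dist_apply_le_dist (f := f) (g := g) (projIcc (-1) 1 neg_one_le_one (-s))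
  rw [Real.dist_eq, abs_le] at h1 h2
  unfold oddExt
  rw [abs_le]; constructor <;> linarith [h1.1, h1.2, h2.1, h2.2]

noncomputable def stepMap (f : C(Icc (-1 : ℝ) 1, ℝ)) : C(Icc (-1 : ℝ) 1, ℝ) :=
  ⟨fun s => fPhi (oddExt f) s, (fPhi_cont (oddExt_cont f)).comp continuous_subtype_val⟩

theorem stepMap_contracting : ContractingWith (1 / 2 : NNReal) stepMap := by
  refine ⟨by norm_num, LipschitzWith.of_dist_le_mul fun f g => ?_⟩
  rw [ContinuousMap.dist_le (by positivity)]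
  intro s
  have := fPhi_lip (oddExt_cont f) (oddExt_cont g) (oddExt_lip f g) s.2
  simpa [stepMap, Real.dist_eq] using this

theorem exists_fixed : ∃ ψ : ℝ → ℝ, Continuous ψ ∧ (∀ s, ψ (-s) = -ψ s) ∧
    ∀ s ∈ Icc (-1 : ℝ) 1, ψ s = fPhi ψ s := by
  let f := stepMap_contracting.fixedPoint
  have hf : stepMap f = f := stepMap_contracting.fixedPoint_isFixedPt
  refine ⟨oddExt f, oddExt_cont f, oddExt_odd f, fun s hs => ?_⟩
  have hs' : -s ∈ Icc (-1 : ℝ) 1 := ⟨by linarith [hs.2], by linarith [hs.1]⟩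
  have e : ∀ u : Icc (-1 : ℝ) 1, f u = fPhi (oddExt f) u := fun u => by
    conv_lhs => rw [← hf]
    rfl
  have h1 : oddExt f s = (fPhi (oddExt f) s - fPhi (oddExt f) (-s)) / 2 := by
    conv_lhs => unfold oddExt
    rw [projIcc_of_mem _ hs, projIcc_of_mem _ hs', e, e]
  rw [h1, fPhi_odd (oddExt_odd f)]
  ring

end Pool.Agent.MP_03af62_an

end

section

open Set

namespace Pool.Agent.MP_03af62_an

theorem le_of_deriv_nonneg {f f' : ℝ → ℝ} {a b : ℝ} (hab : a ≤ b)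
    (hf : ∀ s ∈ Icc a b, HasDerivAt f (f' s) s) (h : ∀ s ∈ Icc a b, 0 ≤ f' s) : f a ≤ f b := by
  have hm : MonotoneOn f (Icc a b) := by
    apply monotoneOn_of_deriv_nonneg (convex_Icc a b)
    · exact fun s hs => (hf s hs).continuousAt.continuousWithinAt
    · exact fun s hs => (hf s (interior_subset hs)).differentiableAt.differentiableWithinAt
    · intro s hs
      rw [(hf s (interior_subset hs)).deriv]
      exact h s (interior_subset hs)
  exact hm (left_mem_Icc.2 hab) (right_mem_Icc.2 hab) hab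

theorem exists_profile : ∃ (φ k A B : ℝ → ℝ) (μ : ℝ), 0 < μ ∧ Continuous φ ∧
    (∀ s, φ (-s) = -φ s) ∧ (∀ s ∈ Icc (-1 : ℝ) 1, HasDerivAt φ (k s) s ∧
      HasDerivAt k ((1 / 40) * (A s * Real.cos (φ s) - B s * Real.sin (φ s))) s ∧
      HasDerivAt A (Real.cos (φ s) ^ 2) s ∧
      HasDerivAt B (-(Real.sin (φ s) * Real.cos (φ s))) s ∧
      k s ^ 2 - (1 / 20) * (A s * Real.sin (φ s) + B s * Real.cos (φ s)) = μ ∧
      |φ s| ≤ 3 / 20) ∧
    k 1 = 0 ∧ k (-1) = 0 ∧ B 1 = 0 ∧ B (-1) = 0 ∧ 0 ≤ A 1 ∧ A (-1) ≤ 0 := by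
  obtain ⟨ψ, hc, ho, hfix⟩ := exists_fixed
  set φ := fPhi ψ with hφ
  set k := fk ψ with hk
  set A := fA ψ with hA
  set B := fB ψ with hB
  have dφ : ∀ s, HasDerivAt φ (k s) s := fun s => prim_hasDerivAt (fk_cont hc) s
  have dk : ∀ s ∈ Icc (-1 : ℝ) 1,
      HasDerivAt k ((1 / 40) * (A s * Real.cos (φ s) - B s * Real.sin (φ s))) s := by
    intro s hs
    have := (prim_hasDerivAt (fg_cont hc) s).sub_const (prim (fg ψ) 1)
    rw [← hfix s hs]
    exact this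
  have dA : ∀ s ∈ Icc (-1 : ℝ) 1, HasDerivAt A (Real.cos (φ s) ^ 2) s := by
    intro s hs
    rw [← hfix s hs]
    exact prim_hasDerivAt (f := fun u => Real.cos (ψ u) ^ 2) (by fun_prop) s
  have dB : ∀ s ∈ Icc (-1 : ℝ) 1, HasDerivAt B (-(Real.sin (φ s) * Real.cos (φ s))) s := by
    intro s hs
    rw [← hfix s hs]
    exact (prim_hasDerivAt (f := fun u => Real.sin (ψ u) * Real.cos (ψ u))
      (by fun_prop) s).const_sub (fH ψ 1)
  have k1 : k 1 = 0 := by simp [hk, fk]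
  have k1' : k (-1) = 0 := by rw [hk, fk_even ho]; exact k1
  have B1 : B 1 = 0 := by simp [hB, fB]
  have B1' : B (-1) = 0 := by rw [hB, fB_even ho]; exact B1
  have A0 : A 0 = 0 := prim_zero _
  have φ0 : φ 0 = 0 := prim_zero _
  have hφb : ∀ s ∈ Icc (-1 : ℝ) 1, |φ s| ≤ 3 / 20 := fun s hs => abs_fPhi_le ψ hs
  have hsin : ∀ s ∈ Icc (-1 : ℝ) 1, |Real.sin (φ s)| ≤ 3 / 20 := fun s hs =>
    Real.abs_sin_le_abs.trans (hφb s hs)
  have hcos : ∀ s ∈ Icc (-1 : ℝ) 1, 9 / 10 ≤ Real.cos (φ s) := fun s hs => by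
    have h1 := Real.one_sub_sq_div_two_le_cos (x := φ s)
    have h2 := abs_le.1 (hφb s hs)
    nlinarith [h2.1, h2.2]
  have hBb : ∀ s ∈ Icc (-1 : ℝ) 1, |B s| ≤ 2 * (3 / 20) := fun s hs =>
    abs_fB_le ψ (fun u hu => by rw [hfix u hu]; exact hsin u hu) hs
  have sub01 : ∀ s ∈ Icc (0 : ℝ) 1, s ∈ Icc (-1 : ℝ) 1 := fun s hs =>
    ⟨by linarith [hs.1], hs.2⟩
  -- lower bound for A on [0,1]
  have hAl : ∀ s ∈ Icc (0 : ℝ) 1, (4 / 5) * s ≤ A s := by
    intro s hs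
    have := le_of_deriv_nonneg (f := fun u => A u - (4 / 5) * u)
      (f' := fun u => Real.cos (φ u) ^ 2 - (4 / 5) * 1) hs.1
      (fun u hu => (dA u (sub01 u ⟨hu.1, hu.2.trans hs.2⟩)).sub
        ((hasDerivAt_id u).const_mul (4 / 5)))
      (fun u hu => by
        have := hcos u (sub01 u ⟨hu.1, hu.2.trans hs.2⟩)
        nlinarith)
    simp only [A0] at this
    linarith
  have hgl : ∀ s ∈ Icc (0 : ℝ) 1,
      (7 / 10) * s - 1 / 20 ≤ A s * Real.cos (φ s) - B s * Real.sin (φ s) := by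
    intro s hs
    have h1 := hAl s hs
    have h2 := hcos s (sub01 s hs)
    have h3 : |B s * Real.sin (φ s)| ≤ 2 * (3 / 20) * (3 / 20) := by
      rw [abs_mul]
      exact mul_le_mul (hBb s (sub01 s hs)) (hsin s (sub01 s hs)) (abs_nonneg _) (by norm_num)
    have h4 := (abs_le.1 h3).2
    have h5 : (4 / 5) * s * (9 / 10) ≤ A s * Real.cos (φ s) :=
      mul_le_mul h1 h2 (by norm_num) (by nlinarith [hs.1])
    nlinarith [hs.1]
  have hku : ∀ s ∈ Icc (0 : ℝ) 1,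
      k s + (1 / 40) * ((7 / 20) * (1 - s ^ 2) - (1 / 20) * (1 - s)) ≤ 0 := by
    intro s hs
    have := le_of_deriv_nonneg
      (f := fun u => k u + (1 / 40) * ((7 / 20) * (1 - u ^ 2) - (1 / 20) * (1 - u)))
      (f' := fun u => (1 / 40) * (A u * Real.cos (φ u) - B u * Real.sin (φ u)) +
        (1 / 40) * ((7 / 20) * (-(2 * u)) - (1 / 20) * (-1))) hs.2
      (fun u hu => by
        refine (dk u (sub01 u ⟨hs.1.trans hu.1, hu.2⟩)).add (HasDerivAt.const_mul _ ?_)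
        refine HasDerivAt.sub (HasDerivAt.const_mul _ ?_) (HasDerivAt.const_mul _ ?_)
        · simpa using (hasDerivAt_pow 2 u).const_sub 1
        · exact (hasDerivAt_id u).const_sub 1)
      (fun u hu => by
        have := hgl u ⟨hs.1.trans hu.1, hu.2⟩
        linarith)
    simp only [k1] at this
    linarith
  have hφ1 : φ 1 < 0 := by
    have := le_of_deriv_nonneg
      (f := fun u => -φ u - (1 / 40) * ((7 / 20) * (u - u ^ 3 / 3) - (1 / 20) * (u - u ^ 2 / 2)))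
      (f' := fun u => -k u - (1 / 40) * ((7 / 20) * (1 - u ^ 2) - (1 / 20) * (1 - u)))
      zero_le_one
      (fun u _ => by
        refine (dφ u).neg.sub (HasDerivAt.const_mul _ ?_)
        refine HasDerivAt.sub (HasDerivAt.const_mul _ ?_) (HasDerivAt.const_mul _ ?_)
        · have := (hasDerivAt_id u).sub ((hasDerivAt_pow 3 u).div_const 3)
          refine this.congr_deriv ?_
          norm_num
        · have := (hasDerivAt_id u).sub ((hasDerivAt_pow 2 u).div_const 2)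
          refine this.congr_deriv ?_
          norm_num)
      (fun u hu => by
        have := hku u hu
        linarith)
    simp only [φ0] at this
    linarith
  have hsin1 : Real.sin (φ 1) < 0 := by
    apply Real.sin_neg_of_neg_of_neg_pi_lt hφ1
    have := (abs_le.1 (hφb 1 one_mem)).1
    linarith [Real.pi_gt_three]
  have hA1 : 0 < A 1 := by
    have := hAl 1 (by norm_num)
    linarith
  have hA1' : A (-1) ≤ 0 := by
    rw [hA, fA_odd ho, ← hA]; linarith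
  -- first integral
  have dh : ∀ s ∈ Icc (-1 : ℝ) 1, HasDerivAt
      (fun s => k s ^ 2 - (1 / 20) * (A s * Real.sin (φ s) + B s * Real.cos (φ s))) 0 s := by
    intro s hs
    have h1 := ((dk s hs).pow 2).sub
      ((((dA s hs).mul (dφ s).sin).add ((dB s hs).mul (dφ s).cos)).const_mul (1 / 20))
    refine HasDerivAt.congr_deriv h1 ?_
    norm_num
    ring
  have hconst : ∀ s ∈ Icc (-1 : ℝ) 1,
      k s ^ 2 - (1 / 20) * (A s * Real.sin (φ s) + B s * Real.cos (φ s)) =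
        -(1 / 20) * (A 1 * Real.sin (φ 1)) := by
    intro s hs
    have h1 := le_of_deriv_nonneg (f' := fun _ => 0) hs.2
      (fun u hu => dh u ⟨hs.1.trans hu.1, hu.2⟩) (fun _ _ => le_rfl)
    have h2 := le_of_deriv_nonneg (f' := fun _ => -0) hs.2
      (fun u hu => (dh u ⟨hs.1.trans hu.1, hu.2⟩).neg) (fun _ _ => by simp)
    simp only [Pi.neg_apply, k1, B1] at h1 h2
    linarith
  refine ⟨φ, k, A, B, -(1 / 20) * (A 1 * Real.sin (φ 1)), by nlinarith, fPhi_cont hc,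
    fPhi_odd ho, fun s hs => ⟨dφ s, dk s hs, dA s hs, dB s hs, hconst s hs, hφb s hs⟩,
    k1, k1', B1, B1', hA1.le, hA1'⟩

end Pool.Agent.MP_03af62_an

end

section

open Set
open scoped ContDiff

namespace Pool.Agent.MP_03af62_an

theorem dW_eq {E : Type} [NormedAddCommGroup E] [NormedSpace ℝ E] {f F : ℝ → E} {F' : E} {x : ℝ}
    (hx : x ∈ Icc (0 : ℝ) 1) (h : ∀ y ∈ Icc (0 : ℝ) 1, f y = F y) (hF : HasDerivAt F F' x) :
    derivWithin f (Icc 0 1) x = F' :=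
  (hF.hasDerivWithinAt.congr h (h x hx)).derivWithin (uniqueDiffOn_Icc zero_lt_one x hx)

theorem inner_c (a b : ℂ) : inner ℝ a b = a.re * b.re + a.im * b.im := by
  rw [Complex.inner]
  simp [mul_comm]

/-- horizontal segment from `p` with signed length `σ * l` -/
noncomputable def seg (p : ℂ) (r : ℝ) (x : ℝ) : ℂ := p + ((x * r : ℝ) : ℂ)

theorem seg_hasDerivAt (p : ℂ) (r x : ℝ) : HasDerivAt (seg p r) (r : ℂ) x := by
  have h : HasDerivAt (fun x : ℝ => x * r) r x := by simpa using (hasDerivAt_id x).mul_const r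
  exact h.ofReal_comp.const_add p

theorem seg_dW (p : ℂ) (r : ℝ) {x : ℝ} (hx : x ∈ Icc (0 : ℝ) 1) :
    derivWithin (seg p r) (Icc 0 1) x = r :=
  dW_eq hx (fun _ _ => rfl) (seg_hasDerivAt p r x)

theorem ds_const {E : Type} [NormedAddCommGroup E] [NormedSpace ℝ E] (γ : ℝ → ℂ) {f : ℝ → E}
    {c : E} (h : ∀ y ∈ Icc (0 : ℝ) 1, f y = c) {x : ℝ} (hx : x ∈ Icc (0 : ℝ) 1) :
    ds γ f x = 0 := by
  unfold ds
  rw [dW_eq hx h (hasDerivAt_const x c), smul_zero]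

theorem seg_tan (p : ℂ) {σ l : ℝ} (hσ : σ = 1 ∨ σ = -1) (hl : 0 < l) {x : ℝ}
    (hx : x ∈ Icc (0 : ℝ) 1) : ds (seg p (σ * l)) (seg p (σ * l)) x = σ := by
  unfold ds
  rw [seg_dW p _ hx, Complex.norm_real, Real.norm_eq_abs, abs_mul, abs_of_pos hl]
  have : |σ| = 1 := by rcases hσ with rfl | rfl <;> simp
  rw [this, one_mul, Complex.real_smul]
  have hl' : (l : ℂ) ≠ 0 := by exact_mod_cast hl.ne'
  push_cast
  field_simp

theorem seg_nrm (p : ℂ) {σ l : ℝ} (hσ : σ = 1 ∨ σ = -1) (hl : 0 < l) {x : ℝ}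
    (hx : x ∈ Icc (0 : ℝ) 1) : nrm (seg p (σ * l)) x = Complex.I * σ := by
  unfold nrm
  rw [seg_tan p hσ hl hx]

theorem seg_curv (p : ℂ) {σ l : ℝ} (hσ : σ = 1 ∨ σ = -1) (hl : 0 < l) {x : ℝ}
    (hx : x ∈ Icc (0 : ℝ) 1) : curv (seg p (σ * l)) x = 0 := by
  unfold curv
  rw [ds_const _ (fun y hy => seg_tan p hσ hl hy) hx, inner_zero_left]

theorem seg_dcurv (p : ℂ) {σ l : ℝ} (hσ : σ = 1 ∨ σ = -1) (hl : 0 < l) {x : ℝ}
    (hx : x ∈ Icc (0 : ℝ) 1) : ds (seg p (σ * l)) (curv (seg p (σ * l))) x = 0 :=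
  ds_const _ (fun _ hy => seg_curv p hσ hl hy) hx

theorem seg_vel (m : ℝ) (p : ℂ) {σ l : ℝ} (hσ : σ = 1 ∨ σ = -1) (hl : 0 < l) {x : ℝ}
    (hx : x ∈ Icc (0 : ℝ) 1) : vel m (seg p (σ * l)) x = 0 := by
  unfold vel
  rw [ds_const _ (fun y hy => seg_dcurv p hσ hl hy) hx, seg_curv p hσ hl hx]
  simp

theorem seg_len (p : ℂ) (r : ℝ) : len (seg p r) = |r| := by
  unfold len
  rw [intervalIntegral.integral_congr (g := fun _ => |r|)]
  · simp
  · intro x hx
    rw [uIcc_of_le zero_le_one] at hx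
    simp only [seg_dW p r hx, Complex.norm_real, Real.norm_eq_abs]

/-- the data of the travelling profile -/
structure Prof (c : ℝ) (φ k A B : ℝ → ℝ) (Z : ℝ → ℂ) (μ : ℝ) : Prop where
  dφ : ∀ s ∈ Icc (-1 : ℝ) 1, HasDerivAt φ (k s) s
  dk : ∀ s ∈ Icc (-1 : ℝ) 1,
    HasDerivAt k ((c / 2) * (A s * Real.cos (φ s) - B s * Real.sin (φ s))) s
  dA : ∀ s ∈ Icc (-1 : ℝ) 1, HasDerivAt A (Real.cos (φ s) ^ 2) s
  dB : ∀ s ∈ Icc (-1 : ℝ) 1, HasDerivAt B (-(Real.sin (φ s) * Real.cos (φ s))) s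
  dZ : ∀ s ∈ Icc (-1 : ℝ) 1, HasDerivAt Z (Complex.I * Complex.exp (φ s * Complex.I)) s
  first : ∀ s ∈ Icc (-1 : ℝ) 1,
    k s ^ 2 - c * (A s * Real.sin (φ s) + B s * Real.cos (φ s)) = μ
  small : ∀ s ∈ Icc (-1 : ℝ) 1, |φ s| ≤ 3 / 20
  pos : 0 < μ
  k1 : k 1 = 0
  k1' : k (-1) = 0
  B1 : B 1 = 0
  B1' : B (-1) = 0
  A1 : 0 ≤ A 1
  A1' : A (-1) ≤ 0
  Z1 : (Z 1).re = 0
  Z1' : (Z (-1)).re = 0

theorem exists_prof : ∃ (φ k A B : ℝ → ℝ) (Z : ℝ → ℂ) (μ : ℝ), Prof (1 / 20) φ k A B Z μ := by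
  obtain ⟨φ, k, A, B, μ, hμ, hc, ho, h, k1, k1', B1, B1', A1, A1'⟩ := exists_profile
  have hs : Continuous fun u => -Real.sin (φ u) := by fun_prop
  have hco : Continuous fun u => Real.cos (φ u) := by fun_prop
  refine ⟨φ, k, A, B, fun s => ((prim (fun u => -Real.sin (φ u)) s -
      prim (fun u => -Real.sin (φ u)) 1 : ℝ) : ℂ) +
      ((prim (fun u => Real.cos (φ u)) s : ℝ) : ℂ) * Complex.I, μ,
    fun s hs => (h s hs).1, fun s hs => ?_, fun s hs => (h s hs).2.2.1,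
    fun s hs => (h s hs).2.2.2.1, fun s _ => ?_, fun s hs => (h s hs).2.2.2.2.1,
    fun s hs => (h s hs).2.2.2.2.2, hμ, k1, k1', B1, B1', A1, A1', ?_, ?_⟩
  · refine (h s hs).2.1.congr_deriv ?_
    ring
  · have h1 := ((prim_hasDerivAt hs s).sub_const (prim (fun u => -Real.sin (φ u)) 1)).ofReal_comp
    have h2 := (prim_hasDerivAt hco s).ofReal_comp.mul_const Complex.I
    refine (h1.add h2).congr_deriv ?_
    apply Complex.ext
    · simp [Complex.exp_ofReal_mul_I_re, Complex.exp_ofReal_mul_I_im, Complex.sin_ofReal_re,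
        Complex.cos_ofReal_im]
    · simp [Complex.exp_ofReal_mul_I_re, Complex.exp_ofReal_mul_I_im, Complex.cos_ofReal_re,
        Complex.sin_ofReal_im]
  · simp
  · have := prim_neg_of_odd (f := fun u => -Real.sin (φ u)) (fun u => by simp [ho]) 1
    simp [this]

theorem Prof.mirror {c : ℝ} {φ k A B : ℝ → ℝ} {Z : ℝ → ℂ} {μ : ℝ} (P : Prof c φ k A B Z μ) :
    Prof (-c) (fun s => -φ s) (fun s => -k s) A (fun s => -B s)
      (fun s => -(starRingEnd ℂ) (Z s)) μ := by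
  refine ⟨fun s hs => (P.dφ s hs).neg, fun s hs => ?_, fun s hs => ?_, fun s hs => ?_,
    fun s hs => ?_, fun s hs => ?_, fun s hs => ?_, P.pos, by simp [P.k1], by simp [P.k1'],
    by simp [P.B1], by simp [P.B1'], P.A1, P.A1', by simp [P.Z1], by simp [P.Z1']⟩
  · refine (P.dk s hs).neg.congr_deriv ?_
    simp only [Real.cos_neg, Real.sin_neg]; ring
  · simpa only [Real.cos_neg] using P.dA s hs
  · refine (P.dB s hs).neg.congr_deriv ?_
    simp only [Real.cos_neg, Real.sin_neg]; ring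
  · have h1 := (Complex.conjCLE.toContinuousLinearMap.hasFDerivAt.comp_hasDerivAt s
      (P.dZ s hs)).neg
    refine HasDerivAt.congr_deriv h1 ?_
    simp [← Complex.exp_conj]
  · have := P.first s hs
    simp only [Real.cos_neg, Real.sin_neg]
    linear_combination this
  · simpa only [abs_neg] using P.small s hs

theorem Prof.smooth {c : ℝ} {φ k A B : ℝ → ℝ} {Z : ℝ → ℂ} {μ : ℝ} (P : Prof c φ k A B Z μ) :
    ContDiffOn ℝ ∞ Z (Icc (-1) 1) := by
  let F : ℝ → (ℝ × ℝ × ℝ × ℝ × ℂ) → (ℝ × ℝ × ℝ × ℝ × ℂ) := fun _ y =>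
    (y.2.1, (c / 2) * (y.2.2.1 * Real.cos y.1 - y.2.2.2.1 * Real.sin y.1), Real.cos y.1 ^ 2,
      -(Real.sin y.1 * Real.cos y.1), Complex.I * Complex.exp (y.1 * Complex.I))
  have hF : ContDiff ℝ ∞ (Function.uncurry F) := by
    have h1 : ContDiff ℝ ∞ (fun y : ℝ × (ℝ × ℝ × ℝ × ℝ × ℂ) => ((y.2.1 : ℝ) : ℂ)) :=
      Complex.ofRealCLM.contDiff.comp (by fun_prop)
    have h2 : ContDiff ℝ ∞ (fun y : ℝ × (ℝ × ℝ × ℝ × ℝ × ℂ) =>
        Complex.I * Complex.exp ((y.2.1 : ℝ) * Complex.I)) :=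
      contDiff_const.mul ((h1.mul contDiff_const).cexp)
    refine ContDiff.prodMk (by fun_prop) (ContDiff.prodMk (by fun_prop)
      (ContDiff.prodMk (by fun_prop) (ContDiff.prodMk (by fun_prop) h2)))
  have key : ContDiffOn ℝ ((⊤ : ℕ∞) : WithTop ℕ∞) (fun s => (φ s, k s, A s, B s, Z s))
      (Icc (-1) 1) := by
    apply ODE.contDiffOn_enat_Icc_of_hasDerivWithinAt (f := F) (u := univ) hF.contDiffOn
    · intro s hs
      exact ((P.dφ s hs).prodMk ((P.dk s hs).prodMk ((P.dA s hs).prodMk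
        ((P.dB s hs).prodMk (P.dZ s hs))))).hasDerivWithinAt
    · exact mapsTo_univ _ _
  exact key.snd.snd.snd.snd

noncomputable def arc (p : ℂ) (Z : ℝ → ℂ) (x : ℝ) : ℂ := p + Z (2 * x - 1)

theorem mem_s {x : ℝ} (hx : x ∈ Icc (0 : ℝ) 1) : 2 * x - 1 ∈ Icc (-1 : ℝ) 1 :=
  ⟨by linarith [hx.1], by linarith [hx.2]⟩

theorem dW_comp {E : Type} [NormedAddCommGroup E] [NormedSpace ℝ E] {f F : ℝ → E} {F' : E} {x : ℝ}
    (hx : x ∈ Icc (0 : ℝ) 1) (h : ∀ y ∈ Icc (0 : ℝ) 1, f y = F (2 * y - 1))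
    (hF : HasDerivAt F F' (2 * x - 1)) : derivWithin f (Icc 0 1) x = (2 : ℝ) • F' := by
  have h1 : HasDerivAt (fun y : ℝ => 2 * y - 1) 2 x := by
    simpa using ((hasDerivAt_id x).const_mul 2).sub_const 1
  exact dW_eq hx h (hF.scomp x h1)

namespace Prof
variable {c : ℝ} {φ k A B : ℝ → ℝ} {Z : ℝ → ℂ} {μ : ℝ} (P : Prof c φ k A B Z μ) (p : ℂ)
include P

theorem arc_dW {x : ℝ} (hx : x ∈ Icc (0 : ℝ) 1) : derivWithin (arc p Z) (Icc 0 1) x =
    (2 : ℝ) • (Complex.I * Complex.exp (φ (2 * x - 1) * Complex.I)) :=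
  dW_comp (F := fun s => p + Z s) hx (fun _ _ => rfl) ((P.dZ _ (mem_s hx)).const_add p)

theorem arc_speed {x : ℝ} (hx : x ∈ Icc (0 : ℝ) 1) :
    ‖derivWithin (arc p Z) (Icc 0 1) x‖ = 2 := by
  rw [P.arc_dW p hx, norm_smul, norm_mul, Complex.norm_exp_ofReal_mul_I]
  simp

theorem arc_ds {E : Type} [NormedAddCommGroup E] [NormedSpace ℝ E] {f F : ℝ → E} {F' : E} {x : ℝ}
    (hx : x ∈ Icc (0 : ℝ) 1) (h : ∀ y ∈ Icc (0 : ℝ) 1, f y = F (2 * y - 1))
    (hF : HasDerivAt F F' (2 * x - 1)) : ds (arc p Z) f x = F' := by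
  unfold ds
  rw [P.arc_speed p hx, dW_comp hx h hF, smul_smul]
  norm_num

theorem arc_tan {x : ℝ} (hx : x ∈ Icc (0 : ℝ) 1) : ds (arc p Z) (arc p Z) x =
    Complex.I * Complex.exp (φ (2 * x - 1) * Complex.I) :=
  P.arc_ds p (F := fun s => p + Z s) hx (fun _ _ => rfl) ((P.dZ _ (mem_s hx)).const_add p)

theorem arc_nrm {x : ℝ} (hx : x ∈ Icc (0 : ℝ) 1) : nrm (arc p Z) x =
    -Complex.exp (φ (2 * x - 1) * Complex.I) := by
  unfold nrm
  rw [P.arc_tan p hx, ← mul_assoc, Complex.I_mul_I, neg_one_mul]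

theorem arc_curv {x : ℝ} (hx : x ∈ Icc (0 : ℝ) 1) : curv (arc p Z) x = k (2 * x - 1) := by
  unfold curv
  have h1 : HasDerivAt (fun s : ℝ => Complex.I * Complex.exp (φ s * Complex.I))
      (Complex.I * (Complex.exp (φ (2 * x - 1) * Complex.I) * (k (2 * x - 1) * Complex.I)))
      (2 * x - 1) :=
    (((P.dφ _ (mem_s hx)).ofReal_comp.mul_const Complex.I).cexp).const_mul Complex.I
  rw [P.arc_ds p hx (fun y hy => P.arc_tan p hy) h1, P.arc_nrm p hx, inner_c]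
  simp only [Complex.mul_re, Complex.mul_im, Complex.I_re, Complex.I_im, Complex.neg_re,
    Complex.neg_im, Complex.exp_ofReal_mul_I_re, Complex.exp_ofReal_mul_I_im, Complex.ofReal_re,
    Complex.ofReal_im]
  have := Real.sin_sq_add_cos_sq (φ (2 * x - 1))
  linear_combination (k (2 * x - 1)) * this

theorem arc_dcurv {x : ℝ} (hx : x ∈ Icc (0 : ℝ) 1) : ds (arc p Z) (curv (arc p Z)) x =
    (c / 2) * (A (2 * x - 1) * Real.cos (φ (2 * x - 1)) -
      B (2 * x - 1) * Real.sin (φ (2 * x - 1))) :=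
  P.arc_ds p hx (fun _ hy => P.arc_curv p hy) (P.dk _ (mem_s hx))

theorem arc_vel {x : ℝ} (hx : x ∈ Icc (0 : ℝ) 1) :
    vel μ (arc p Z) x = -c * Real.cos (φ (2 * x - 1)) := by
  unfold vel
  have hs := mem_s hx
  have h1 := (((P.dA _ hs).mul (P.dφ _ hs).cos).sub ((P.dB _ hs).mul (P.dφ _ hs).sin)).const_mul
    (c / 2)
  rw [P.arc_ds p (F := fun s => (c / 2) * (A s * Real.cos (φ s) - B s * Real.sin (φ s))) hx
    (fun y hy => P.arc_dcurv p hy) h1, P.arc_curv p hx]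
  have h2 := P.first _ hs
  have h3 := Real.sin_sq_add_cos_sq (φ (2 * x - 1))
  linear_combination (-k (2 * x - 1)) * h2 - c * Real.cos (φ (2 * x - 1)) * h3

/-- the force exerted by the arc at an end is horizontal -/
theorem arc_force {x : ℝ} (hx : x ∈ Icc (0 : ℝ) 1) (hk : k (2 * x - 1) = 0)
    (hB : B (2 * x - 1) = 0) :
    (2 * ds (arc p Z) (curv (arc p Z)) x) • nrm (arc p Z) x - μ • ds (arc p Z) (arc p Z) x =
      ((-c * A (2 * x - 1) : ℝ) : ℂ) := by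
  rw [P.arc_dcurv p hx, P.arc_nrm p hx, P.arc_tan p hx]
  have h2 := P.first _ (mem_s hx)
  have h3 := Real.sin_sq_add_cos_sq (φ (2 * x - 1))
  rw [hk, hB] at h2
  rw [hB, ← h2]
  apply Complex.ext
  · simp only [Complex.sub_re, Complex.smul_re, Complex.mul_re, Complex.I_re, Complex.I_im,
      Complex.neg_re, Complex.exp_ofReal_mul_I_re, Complex.exp_ofReal_mul_I_im, Complex.ofReal_re,
      smul_eq_mul]
    linear_combination (-c * A (2 * x - 1)) * h3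
  · simp only [Complex.sub_im, Complex.smul_im, Complex.mul_im, Complex.I_re, Complex.I_im,
      Complex.neg_im, Complex.exp_ofReal_mul_I_re, Complex.exp_ofReal_mul_I_im, Complex.ofReal_im,
      smul_eq_mul]
    ring

theorem cos_pos {s : ℝ} (hs : s ∈ Icc (-1 : ℝ) 1) : 0 < Real.cos (φ s) := by
  have h1 := Real.one_sub_sq_div_two_le_cos (x := φ s)
  have h2 := abs_le.1 (P.small s hs)
  nlinarith [h2.1, h2.2]

end Prof

end Pool.Agent.MP_03af62_an

end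

section

open Set Filter Topology
open scoped ContDiff

namespace Pool.Agent.MP_03af62_an

def vtx8 (e : Fin 8 × Bool) : ℕ :=
  if e.2 then ![1, 3, 2, 3, 4, 5, 6, 7] e.1 else ![0, 2, 0, 1, 0, 1, 2, 3] e.1

noncomputable def net8 (μ a b : ℝ) : Net 8 :=
  ⟨vtx8, fun _ => False, ![μ, μ, 1 + a, 1 + b, 1, 1, 1, 1]⟩

noncomputable def mir (Z : ℝ → ℂ) (s : ℝ) : ℂ := -(starRingEnd ℂ) (Z s)

noncomputable def pL (t : ℝ) : ℂ := (((t - 1) / 20 : ℝ) : ℂ)
noncomputable def pR (t : ℝ) : ℂ := (((1 - t) / 20 : ℝ) : ℂ)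

noncomputable def flow8 (Z : ℝ → ℂ) (t : ℝ) : Fin 8 → ℝ → ℂ :=
  ![arc (pL t) Z, arc (pR t) (mir Z),
    seg (pL t + Z (-1)) (1 * ((1 - t) / 10)),
    seg (pL t + Z 1) (1 * ((1 - t) / 10)),
    seg (pL t + Z (-1)) ((-1) * (1 + t / 20)),
    seg (pL t + Z 1) ((-1) * (1 + t / 20)),
    seg (pR t + Z (-1)) (1 * (1 + t / 20)),
    seg (pR t + Z 1) (1 * (1 + t / 20))]

def S0 : Finset (Fin 8 × Bool) := {(0, false), (2, false), (4, false)}
def S1 : Finset (Fin 8 × Bool) := {(0, true), (3, false), (5, false)}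
def S2 : Finset (Fin 8 × Bool) := {(1, false), (2, true), (6, false)}
def S3 : Finset (Fin 8 × Bool) := {(1, true), (3, true), (7, false)}

theorem star_cases (μ a b : ℝ) (e : Fin 8 × Bool) :
    ((net8 μ a b).star e = S0 ∧ e ∈ S0) ∨ ((net8 μ a b).star e = S1 ∧ e ∈ S1) ∨
    ((net8 μ a b).star e = S2 ∧ e ∈ S2) ∨ ((net8 μ a b).star e = S3 ∧ e ∈ S3) ∨
      ((net8 μ a b).star e = {e} ∧ e.2 = true ∧ 4 ≤ e.1.val) := by
  have : (net8 μ a b).star e = Finset.univ.filter fun e' => vtx8 e' = vtx8 e := rfl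
  rw [this]
  clear this
  revert e
  decide

theorem star_two (μ a b : ℝ) (c : Bool) : ((net8 μ a b).star (2, c)).card = 3 := by
  have : (net8 μ a b).star (2, c) = Finset.univ.filter fun e' => vtx8 e' = vtx8 (2, c) := rfl
  rw [this]
  clear this
  revert c
  decide

theorem card_S0 : S0.card = 3 := by decide
theorem card_S1 : S1.card = 3 := by decide
theorem card_S2 : S2.card = 3 := by decide
theorem card_S3 : S3.card = 3 := by decide

theorem pt_false : pt false = 0 := rfl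
theorem pt_true : pt true = 1 := rfl
theorem pt_mem (b : Bool) : pt b ∈ Icc (0 : ℝ) 1 := by cases b <;> simp [pt]
theorem zero_mem01 : (0 : ℝ) ∈ Icc (0 : ℝ) 1 := by simp
theorem one_mem01 : (1 : ℝ) ∈ Icc (0 : ℝ) 1 := by simp

theorem flow8_0 (Z : ℝ → ℂ) (t : ℝ) : flow8 Z t 0 = arc (pL t) Z := rfl
theorem flow8_1 (Z : ℝ → ℂ) (t : ℝ) : flow8 Z t 1 = arc (pR t) (mir Z) := rfl
theorem flow8_2 (Z : ℝ → ℂ) (t : ℝ) :
    flow8 Z t 2 = seg (pL t + Z (-1)) (1 * ((1 - t) / 10)) := rfl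
theorem flow8_3 (Z : ℝ → ℂ) (t : ℝ) :
    flow8 Z t 3 = seg (pL t + Z 1) (1 * ((1 - t) / 10)) := rfl
theorem flow8_4 (Z : ℝ → ℂ) (t : ℝ) :
    flow8 Z t 4 = seg (pL t + Z (-1)) ((-1) * (1 + t / 20)) := rfl
theorem flow8_5 (Z : ℝ → ℂ) (t : ℝ) :
    flow8 Z t 5 = seg (pL t + Z 1) ((-1) * (1 + t / 20)) := rfl
theorem flow8_6 (Z : ℝ → ℂ) (t : ℝ) :
    flow8 Z t 6 = seg (pR t + Z (-1)) (1 * (1 + t / 20)) := rfl
theorem flow8_7 (Z : ℝ → ℂ) (t : ℝ) :
    flow8 Z t 7 = seg (pR t + Z 1) (1 * (1 + t / 20)) := rfl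

/-- every curve other than the two crossbars is a horizontal segment -/
theorem flow8_seg (Z : ℝ → ℂ) {t : ℝ} (ht : t ∈ Ico (0 : ℝ) 1) {i : Fin 8} (hi : i ≠ 0)
    (hi' : i ≠ 1) :
    ∃ (p : ℂ) (σ l : ℝ), (σ = 1 ∨ σ = -1) ∧ 0 < l ∧ flow8 Z t i = seg p (σ * l) := by
  have h1 : 0 < (1 - t) / 10 := by linarith [ht.2]
  have h2 : 0 < 1 + t / 20 := by linarith [ht.1]
  fin_cases i
  · exact absurd rfl hi
  · exact absurd rfl hi'
  · exact ⟨_, _, _, Or.inl rfl, h1, flow8_2 Z t⟩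
  · exact ⟨_, _, _, Or.inl rfl, h1, flow8_3 Z t⟩
  · exact ⟨_, _, _, Or.inr rfl, h2, flow8_4 Z t⟩
  · exact ⟨_, _, _, Or.inr rfl, h2, flow8_5 Z t⟩
  · exact ⟨_, _, _, Or.inl rfl, h2, flow8_6 Z t⟩
  · exact ⟨_, _, _, Or.inl rfl, h2, flow8_7 Z t⟩

theorem n0 : (2 : ℝ) * 0 - 1 = -1 := by norm_num
theorem n1 : (2 : ℝ) * 1 - 1 = 1 := by norm_num

theorem pos_S0 (Z : ℝ → ℂ) (t : ℝ) {e : Fin 8 × Bool} (he : e ∈ S0) :
    flow8 Z t e.1 (pt e.2) = pL t + Z (-1) := by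
  simp only [S0, Finset.mem_insert, Finset.mem_singleton] at he
  rcases he with rfl | rfl | rfl
  · simp only [flow8_0, arc, pt_false, n0]
  · simp [flow8_2, seg, pt]
  · simp [flow8_4, seg, pt]

theorem pos_S1 (Z : ℝ → ℂ) (t : ℝ) {e : Fin 8 × Bool} (he : e ∈ S1) :
    flow8 Z t e.1 (pt e.2) = pL t + Z 1 := by
  simp only [S1, Finset.mem_insert, Finset.mem_singleton] at he
  rcases he with rfl | rfl | rfl
  · simp only [flow8_0, arc, pt_true, n1]
  · simp [flow8_3, seg, pt]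
  · simp [flow8_5, seg, pt]

theorem mir_eq {Z : ℝ → ℂ} {s : ℝ} (h : (Z s).re = 0) : mir Z s = Z s := by
  apply Complex.ext <;> simp [mir, h]

theorem pos_S2 {Z : ℝ → ℂ} (hZ : (Z (-1)).re = 0) (t : ℝ) {e : Fin 8 × Bool} (he : e ∈ S2) :
    flow8 Z t e.1 (pt e.2) = pR t + Z (-1) := by
  simp only [S2, Finset.mem_insert, Finset.mem_singleton] at he
  rcases he with rfl | rfl | rfl
  · simp only [flow8_1, arc, pt_false, n0, mir_eq hZ]
  · simp only [flow8_2, seg, pt_true, pL, pR]; push_cast; ring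
  · simp [flow8_6, seg, pt]

theorem pos_S3 {Z : ℝ → ℂ} (hZ : (Z 1).re = 0) (t : ℝ) {e : Fin 8 × Bool} (he : e ∈ S3) :
    flow8 Z t e.1 (pt e.2) = pR t + Z 1 := by
  simp only [S3, Finset.mem_insert, Finset.mem_singleton] at he
  rcases he with rfl | rfl | rfl
  · simp only [flow8_1, arc, pt_true, n1, mir_eq hZ]
  · simp only [flow8_3, seg, pt_true, pL, pR]; push_cast; ring
  · simp [flow8_7, seg, pt]

theorem pos_fixed (Z : ℝ → ℂ) (t : ℝ) {i : Fin 8} (hi : 4 ≤ i.val) :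
    flow8 Z t i 1 = flow8 Z 0 i 1 := by
  fin_cases i
  · exact absurd hi (by decide)
  · exact absurd hi (by decide)
  · exact absurd hi (by decide)
  · exact absurd hi (by decide)
  · show flow8 Z t 4 1 = flow8 Z 0 4 1
    simp only [flow8_4, seg, pL]; push_cast; ring
  · show flow8 Z t 5 1 = flow8 Z 0 5 1
    simp only [flow8_5, seg, pL]; push_cast; ring
  · show flow8 Z t 6 1 = flow8 Z 0 6 1
    simp only [flow8_6, seg, pR]; push_cast; ring
  · show flow8 Z t 7 1 = flow8 Z 0 7 1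
    simp only [flow8_7, seg, pR]; push_cast; ring

/-- the vector `2 ∂_s k ν - μ τ` -/
noncomputable def force (m : ℝ) (γ : ℝ → ℂ) (x : ℝ) : ℂ :=
  (2 * ds γ (curv γ) x) • nrm γ x - m • ds γ γ x

theorem seg_force (m : ℝ) (p : ℂ) {σ l : ℝ} (hσ : σ = 1 ∨ σ = -1) (hl : 0 < l) {x : ℝ}
    (hx : x ∈ Icc (0 : ℝ) 1) : force m (seg p (σ * l)) x = ((-(m * σ) : ℝ) : ℂ) := by
  unfold force
  rw [seg_dcurv p hσ hl hx, seg_tan p hσ hl hx]
  simp

theorem time_deriv (Z : ℝ → ℂ) {t : ℝ} (ht : t ∈ Ico (0 : ℝ) 1) (i : Fin 8) (x : ℝ) :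
    ∃ v : ℝ, (i = 0 → v = 1 / 20) ∧ (i = 1 → v = -(1 / 20)) ∧
      derivWithin (fun u => flow8 Z u i x) (Ico 0 1) t = (v : ℂ) := by
  have hu := uniqueDiffOn_Ico (0 : ℝ) 1 t ht
  have hL : HasDerivAt pL ((1 / 20 : ℝ) : ℂ) t :=
    (((hasDerivAt_id t).sub_const 1).div_const 20).ofReal_comp
  have hR : HasDerivAt pR ((-(1 / 20) : ℝ) : ℂ) t := by
    have := (((hasDerivAt_id t).const_sub 1).div_const 20).ofReal_comp
    refine HasDerivAt.congr_deriv this ?_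
    push_cast; ring
  have hs : ∀ (q : ℝ → ℂ) (q' : ℝ) (z : ℂ) (r : ℝ → ℝ) (r' : ℝ), HasDerivAt q (q' : ℂ) t →
      HasDerivAt r r' t →
      derivWithin (fun u => seg (q u + z) (r u) x) (Ico 0 1) t = ((q' + x * r' : ℝ) : ℂ) := by
    intro q q' z r r' hq hr
    have := (hq.add_const z).add (hr.const_mul x).ofReal_comp
    have h2 := this.hasDerivWithinAt.derivWithin hu
    rw [Complex.ofReal_add]
    exact h2
  have r1 : HasDerivAt (fun u : ℝ => 1 * ((1 - u) / 10)) (1 * ((-1) / 10)) t :=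
    (((hasDerivAt_id t).const_sub 1).div_const 10).const_mul 1
  have r2 : HasDerivAt (fun u : ℝ => (-1) * (1 + u / 20)) ((-1) * (1 / 20)) t :=
    (((hasDerivAt_id t).div_const 20).const_add 1).const_mul (-1)
  have r3 : HasDerivAt (fun u : ℝ => 1 * (1 + u / 20)) (1 * (1 / 20)) t :=
    (((hasDerivAt_id t).div_const 20).const_add 1).const_mul 1
  fin_cases i
  · exact ⟨1 / 20, fun _ => rfl, fun h => absurd h (by decide),
      (hL.add_const (Z (2 * x - 1))).hasDerivWithinAt.derivWithin hu⟩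
  · exact ⟨-(1 / 20), fun h => absurd h (by decide), fun _ => rfl,
      (hR.add_const (mir Z (2 * x - 1))).hasDerivWithinAt.derivWithin hu⟩
  · exact ⟨_, fun h => absurd h (by decide), fun h => absurd h (by decide),
      hs pL _ (Z (-1)) _ _ hL r1⟩
  · exact ⟨_, fun h => absurd h (by decide), fun h => absurd h (by decide),
      hs pL _ (Z 1) _ _ hL r1⟩
  · exact ⟨_, fun h => absurd h (by decide), fun h => absurd h (by decide),
      hs pL _ (Z (-1)) _ _ hL r2⟩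
  · exact ⟨_, fun h => absurd h (by decide), fun h => absurd h (by decide),
      hs pL _ (Z 1) _ _ hL r2⟩
  · exact ⟨_, fun h => absurd h (by decide), fun h => absurd h (by decide),
      hs pR _ (Z (-1)) _ _ hR r3⟩
  · exact ⟨_, fun h => absurd h (by decide), fun h => absurd h (by decide),
      hs pR _ (Z 1) _ _ hR r3⟩

theorem span_top {S : Set ℂ} {θ : ℝ} (hθ : 0 < Real.cos θ) (h1 : Complex.I * (1 : ℝ) ∈ S)
    (h2 : -Complex.exp (θ * Complex.I) ∈ S) : Submodule.span ℝ S = ⊤ := by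
  rw [eq_top_iff]
  intro z _
  have e : z = (-(z.re / Real.cos θ)) • (-Complex.exp (θ * Complex.I)) +
      (z.im - z.re / Real.cos θ * Real.sin θ) • (Complex.I * (1 : ℝ)) := by
    apply Complex.ext
    · simp only [Complex.add_re, Complex.smul_re, Complex.neg_re, Complex.exp_ofReal_mul_I_re,
        Complex.mul_re, Complex.I_re, Complex.I_im, Complex.ofReal_re, Complex.ofReal_im,
        smul_eq_mul]
      field_simp
      ring
    · simp only [Complex.add_im, Complex.smul_im, Complex.neg_im, Complex.exp_ofReal_mul_I_im,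
        Complex.mul_im, Complex.I_re, Complex.I_im, Complex.ofReal_re, Complex.ofReal_im,
        smul_eq_mul]
      ring
  rw [e]
  exact Submodule.add_mem _ (Submodule.smul_mem _ _ (Submodule.subset_span h2))
    (Submodule.smul_mem _ _ (Submodule.subset_span h1))

namespace Prof

section general
variable {c : ℝ} {φ k A B : ℝ → ℝ} {Z : ℝ → ℂ} {μ : ℝ} (P : Prof c φ k A B Z μ)
include P

theorem arc_regular (p : ℂ) {x : ℝ} (hx : x ∈ Icc (0 : ℝ) 1) :
    derivWithin (arc p Z) (Icc 0 1) x ≠ 0 := by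
  intro h
  have := P.arc_speed p hx
  rw [h] at this
  simp at this

theorem arc_curv_end (p : ℂ) (b : Bool) : curv (arc p Z) (pt b) = 0 := by
  rw [P.arc_curv _ (pt_mem b)]
  cases b
  · rw [pt_false, n0]; exact P.k1'
  · rw [pt_true, n1]; exact P.k1

theorem force0 (p : ℂ) : force μ (arc p Z) 0 = ((-c * A (-1) : ℝ) : ℂ) := by
  have := P.arc_force p zero_mem01 (by rw [n0]; exact P.k1') (by rw [n0]; exact P.B1')
  rw [n0] at this
  exact this

theorem force1 (p : ℂ) : force μ (arc p Z) 1 = ((-c * A 1 : ℝ) : ℂ) := by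
  have := P.arc_force p one_mem01 (by rw [n1]; exact P.k1) (by rw [n1]; exact P.B1)
  rw [n1] at this
  exact this

theorem arc_inner (p : ℂ) {x : ℝ} (hx : x ∈ Icc (0 : ℝ) 1) :
    inner ℝ (c : ℂ) (nrm (arc p Z) x) = vel μ (arc p Z) x := by
  rw [P.arc_vel _ hx, P.arc_nrm _ hx, inner_c]
  simp only [Complex.neg_re, Complex.exp_ofReal_mul_I_re, Complex.ofReal_re, Complex.ofReal_im]
  ring

end general

variable {φ k A B : ℝ → ℝ} {Z : ℝ → ℂ} {μ : ℝ} (P : Prof (1 / 20) φ k A B Z μ)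
include P

theorem mirror' : Prof (-(1 / 20)) (fun s => -φ s) (fun s => -k s) A (fun s => -B s) (mir Z) μ :=
  P.mirror

theorem regular {t : ℝ} (ht : t ∈ Ico (0 : ℝ) 1) (i : Fin 8) {x : ℝ} (hx : x ∈ Icc (0 : ℝ) 1) :
    derivWithin (flow8 Z t i) (Icc 0 1) x ≠ 0 := by
  by_cases hi : i = 0
  · subst hi; exact P.arc_regular _ hx
  by_cases hi' : i = 1
  · subst hi'; exact P.mirror'.arc_regular _ hx
  obtain ⟨p, σ, l, hσ, hl, e⟩ := flow8_seg Z ht hi hi'
  rw [e, seg_dW _ _ hx]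
  have : σ * l ≠ 0 := by rcases hσ with rfl | rfl <;> simp [hl.ne']
  exact_mod_cast this

theorem curv_end {t : ℝ} (ht : t ∈ Ico (0 : ℝ) 1) (e : Fin 8 × Bool) :
    curv (flow8 Z t e.1) (pt e.2) = 0 := by
  obtain ⟨i, b⟩ := e
  by_cases hi : i = 0
  · subst hi; exact P.arc_curv_end _ b
  by_cases hi' : i = 1
  · subst hi'; exact P.mirror'.arc_curv_end _ b
  obtain ⟨p, σ, l, hσ, hl, e⟩ := flow8_seg Z ht hi hi'
  show curv (flow8 Z t i) (pt b) = 0
  rw [e, seg_curv p hσ hl (pt_mem b)]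

theorem bc {t : ℝ} (ht : t ∈ Ico (0 : ℝ) 1) :
    BC (net8 μ (-(1 / 20) * A (-1)) ((1 / 20) * A 1)) (flow8 Z 0) (flow8 Z t) := by
  have h1 : 0 < (1 - t) / 10 := by linarith [ht.2]
  have h2 : 0 < 1 + t / 20 := by linarith [ht.1]
  intro e
  refine ⟨?_, fun h => h.elim, fun _ => ⟨P.curv_end ht e, ?_, ?_⟩⟩
  · intro e' he'
    rcases star_cases μ (-(1 / 20) * A (-1)) ((1 / 20) * A 1) e with
      ⟨h, he⟩ | ⟨h, he⟩ | ⟨h, he⟩ | ⟨h, he⟩ | ⟨h, -⟩
    · rw [h] at he'; rw [pos_S0 Z t he, pos_S0 Z t he']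
    · rw [h] at he'; rw [pos_S1 Z t he, pos_S1 Z t he']
    · rw [h] at he'; rw [pos_S2 P.Z1' t he, pos_S2 P.Z1' t he']
    · rw [h] at he'; rw [pos_S3 P.Z1 t he, pos_S3 P.Z1 t he']
    · rw [h, Finset.mem_singleton] at he'; rw [he']
  · intro hc
    rcases star_cases μ (-(1 / 20) * A (-1)) ((1 / 20) * A 1) e with
      ⟨h, -⟩ | ⟨h, -⟩ | ⟨h, -⟩ | ⟨h, -⟩ | ⟨-, h, hi⟩
    · rw [h, card_S0] at hc; omega
    · rw [h, card_S1] at hc; omega
    · rw [h, card_S2] at hc; omega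
    · rw [h, card_S3] at hc; omega
    · rw [h]; exact pos_fixed Z t hi
  · intro hc
    show ∑ e' ∈ (net8 μ (-(1 / 20) * A (-1)) ((1 / 20) * A 1)).star e,
      (if e'.2 then (-1 : ℝ) else 1) •
        force ((net8 μ (-(1 / 20) * A (-1)) ((1 / 20) * A 1)).weight e'.1) (flow8 Z t e'.1)
          (pt e'.2) = 0
    rcases star_cases μ (-(1 / 20) * A (-1)) ((1 / 20) * A 1) e with
      ⟨h, -⟩ | ⟨h, -⟩ | ⟨h, -⟩ | ⟨h, -⟩ | ⟨h, -⟩
    · rw [h, S0, Finset.sum_insert (by decide), Finset.sum_insert (by decide),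
        Finset.sum_singleton]
      show (1 : ℝ) • force μ (arc (pL t) Z) 0 +
        ((1 : ℝ) • force (1 + -(1 / 20) * A (-1)) (seg (pL t + Z (-1)) (1 * ((1 - t) / 10))) 0 +
          (1 : ℝ) • force 1 (seg (pL t + Z (-1)) ((-1) * (1 + t / 20))) 0) = 0
      rw [P.force0, seg_force _ _ (Or.inl rfl) h1 zero_mem01,
        seg_force _ _ (Or.inr rfl) h2 zero_mem01]
      simp only [one_smul]; push_cast; ring
    · rw [h, S1, Finset.sum_insert (by decide), Finset.sum_insert (by decide),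
        Finset.sum_singleton]
      show (-1 : ℝ) • force μ (arc (pL t) Z) 1 +
        ((1 : ℝ) • force (1 + (1 / 20) * A 1) (seg (pL t + Z 1) (1 * ((1 - t) / 10))) 0 +
          (1 : ℝ) • force 1 (seg (pL t + Z 1) ((-1) * (1 + t / 20))) 0) = 0
      rw [P.force1, seg_force _ _ (Or.inl rfl) h1 zero_mem01,
        seg_force _ _ (Or.inr rfl) h2 zero_mem01]
      simp only [one_smul, neg_smul]; push_cast; ring
    · rw [h, S2, Finset.sum_insert (by decide), Finset.sum_insert (by decide),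
        Finset.sum_singleton]
      show (1 : ℝ) • force μ (arc (pR t) (mir Z)) 0 +
        ((-1 : ℝ) • force (1 + -(1 / 20) * A (-1)) (seg (pL t + Z (-1)) (1 * ((1 - t) / 10))) 1 +
          (1 : ℝ) • force 1 (seg (pR t + Z (-1)) (1 * (1 + t / 20))) 0) = 0
      rw [P.mirror'.force0, seg_force _ _ (Or.inl rfl) h1 one_mem01,
        seg_force _ _ (Or.inl rfl) h2 zero_mem01]
      simp only [one_smul, neg_smul]; push_cast; ring
    · rw [h, S3, Finset.sum_insert (by decide), Finset.sum_insert (by decide),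
        Finset.sum_singleton]
      show (-1 : ℝ) • force μ (arc (pR t) (mir Z)) 1 +
        ((-1 : ℝ) • force (1 + (1 / 20) * A 1) (seg (pL t + Z 1) (1 * ((1 - t) / 10))) 1 +
          (1 : ℝ) • force 1 (seg (pR t + Z 1) (1 * (1 + t / 20))) 0) = 0
      rw [P.mirror'.force1, seg_force _ _ (Or.inl rfl) h1 one_mem01,
        seg_force _ _ (Or.inl rfl) h2 zero_mem01]
      simp only [one_smul, neg_smul]; push_cast; ring
    · rw [h, Finset.card_singleton] at hc; omega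

theorem smooth_flow (i : Fin 8) :
    ContDiffOn ℝ ∞ (fun p : ℝ × ℝ => flow8 Z p.1 i p.2) (Ico 0 1 ×ˢ Icc 0 1) := by
  have hR : ∀ f : ℝ × ℝ → ℝ, ContDiff ℝ ∞ f → ContDiff ℝ ∞ (fun p => ((f p : ℝ) : ℂ)) :=
    fun f hf => Complex.ofRealCLM.contDiff.comp hf
  have hL' : ContDiff ℝ ∞ (fun p : ℝ × ℝ => pL p.1) := hR _ (by fun_prop)
  have hR' : ContDiff ℝ ∞ (fun p : ℝ × ℝ => pR p.1) := hR _ (by fun_prop)
  have hs : ∀ (q : ℝ → ℂ) (z : ℂ) (r : ℝ → ℝ), ContDiff ℝ ∞ (fun p : ℝ × ℝ => q p.1) →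
      ContDiff ℝ ∞ r → ContDiff ℝ ∞ (fun p : ℝ × ℝ => seg (q p.1 + z) (r p.1) p.2) := by
    intro q z r hq hr
    unfold seg
    exact (hq.add contDiff_const).add (hR _ (by fun_prop))
  fin_cases i
  · show ContDiffOn ℝ ∞ (fun p : ℝ × ℝ => pL p.1 + Z (2 * p.2 - 1)) _
    refine hL'.contDiffOn.add ?_
    exact P.smooth.comp (f := fun p : ℝ × ℝ => 2 * p.2 - 1) (by fun_prop)
      (fun p hp => mem_s hp.2)
  · show ContDiffOn ℝ ∞ (fun p : ℝ × ℝ => pR p.1 + mir Z (2 * p.2 - 1)) _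
    refine hR'.contDiffOn.add ?_
    exact P.mirror'.smooth.comp (f := fun p : ℝ × ℝ => 2 * p.2 - 1) (by fun_prop)
      (fun p hp => mem_s hp.2)
  · exact (hs pL (Z (-1)) (fun t => 1 * ((1 - t) / 10)) hL' (by fun_prop)).contDiffOn
  · exact (hs pL (Z 1) (fun t => 1 * ((1 - t) / 10)) hL' (by fun_prop)).contDiffOn
  · exact (hs pL (Z (-1)) (fun t => (-1) * (1 + t / 20)) hL' (by fun_prop)).contDiffOn
  · exact (hs pL (Z 1) (fun t => (-1) * (1 + t / 20)) hL' (by fun_prop)).contDiffOn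
  · exact (hs pR (Z (-1)) (fun t => 1 * (1 + t / 20)) hR' (by fun_prop)).contDiffOn
  · exact (hs pR (Z 1) (fun t => 1 * (1 + t / 20)) hR' (by fun_prop)).contDiffOn

theorem inner_eq_vel (a b : ℝ) {t : ℝ} (ht : t ∈ Ico (0 : ℝ) 1) (i : Fin 8) {x : ℝ}
    (hx : x ∈ Icc (0 : ℝ) 1) (v : ℝ) (hv : i = 0 → v = 1 / 20) (hv' : i = 1 → v = -(1 / 20)) :
    inner ℝ (v : ℂ) (nrm (flow8 Z t i) x) = vel ((net8 μ a b).weight i) (flow8 Z t i) x := by
  by_cases hi : i = 0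
  · subst hi
    rw [hv rfl]
    exact P.arc_inner _ hx
  by_cases hi' : i = 1
  · subst hi'
    rw [hv' rfl]
    exact P.mirror'.arc_inner _ hx
  obtain ⟨p, σ, l, hσ, hl, e⟩ := flow8_seg Z ht hi hi'
  rw [e, seg_vel _ p hσ hl hx, seg_nrm p hσ hl hx, inner_c]
  simp

theorem isFlow : IsFlow (net8 μ (-(1 / 20) * A (-1)) ((1 / 20) * A 1)) 1 (flow8 Z) := by
  refine ⟨P.smooth_flow, fun t ht => ⟨P.bc ht, fun i x hx => ⟨P.regular ht i hx, ?_⟩⟩⟩
  obtain ⟨v, hv, hv', e⟩ := time_deriv Z ht i x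
  rw [e]
  exact P.inner_eq_vel _ _ ht i hx v hv hv'

theorem connected : IsConnected (⋃ i, flow8 Z 0 i '' Icc 0 1) := by
  have h0 : (0 : ℝ) ∈ Ico (0 : ℝ) 1 := by simp
  have hsm : ∀ i, ContDiffOn ℝ ∞ (flow8 Z 0 i) (Icc 0 1) := fun i =>
    (P.smooth_flow i).comp (f := fun x : ℝ => ((0 : ℝ), x)) (by fun_prop) (fun x hx => ⟨h0, hx⟩)
  have hpc : ∀ i, IsPreconnected (flow8 Z 0 i '' Icc 0 1) := fun i =>
    isPreconnected_Icc.image _ (hsm i).continuousOn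
  refine ⟨⟨flow8 Z 0 0 0, mem_iUnion.2 ⟨0, 0, zero_mem01, rfl⟩⟩, ?_⟩
  set K : Set ℂ := (flow8 Z 0 0 '' Icc 0 1 ∪ flow8 Z 0 2 '' Icc 0 1) ∪ flow8 Z 0 1 '' Icc 0 1
    with hK
  have m : ∀ (i : Fin 8) (b : Bool) (z : ℂ), flow8 Z 0 i (pt b) = z →
      z ∈ flow8 Z 0 i '' Icc 0 1 := fun i b z h => ⟨pt b, pt_mem b, h⟩
  have hKc : IsPreconnected K :=
    ((hpc 0).union (pL 0 + Z (-1)) (m 0 false _ (pos_S0 Z 0 (e := (0, false)) (by decide)))
      (m 2 false _ (pos_S0 Z 0 (e := (2, false)) (by decide))) (hpc 2)).union (pR 0 + Z (-1))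
      (Or.inr (m 2 true _ (pos_S2 P.Z1' 0 (e := (2, true)) (by decide))))
      (m 1 false _ (pos_S2 P.Z1' 0 (e := (1, false)) (by decide))) (hpc 1)
  have e : (⋃ i, flow8 Z 0 i '' Icc 0 1) = ⋃ i, (K ∪ flow8 Z 0 i '' Icc 0 1) := by
    apply Subset.antisymm
    · exact iUnion_mono fun i => subset_union_right
    · have su := fun i => subset_iUnion (fun i => flow8 Z 0 i '' Icc 0 1) i
      exact iUnion_subset fun i =>
        union_subset (union_subset (union_subset (su 0) (su 2)) (su 1)) (su i)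
  rw [e]
  have q0 : pL 0 + Z (-1) ∈ K :=
    Or.inl (Or.inl (m 0 false _ (pos_S0 Z 0 (e := (0, false)) (by decide))))
  have q1 : pL 0 + Z 1 ∈ K :=
    Or.inl (Or.inl (m 0 true _ (pos_S1 Z 0 (e := (0, true)) (by decide))))
  have q2 : pR 0 + Z (-1) ∈ K := Or.inr (m 1 false _ (pos_S2 P.Z1' 0 (e := (1, false)) (by decide)))
  have q3 : pR 0 + Z 1 ∈ K := Or.inr (m 1 true _ (pos_S3 P.Z1 0 (e := (1, true)) (by decide)))
  apply isPreconnected_iUnion
  · exact ⟨pL 0 + Z (-1), mem_iInter.2 fun i => Or.inl q0⟩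
  · intro i
    have a0 : ∀ j : Fin 8, (j, false) ∈ S0 → IsPreconnected (K ∪ flow8 Z 0 j '' Icc 0 1) :=
      fun j hj => hKc.union _ q0 (m j false _ (pos_S0 Z 0 (e := (j, false)) hj)) (hpc j)
    have a1 : ∀ j : Fin 8, (j, false) ∈ S1 → IsPreconnected (K ∪ flow8 Z 0 j '' Icc 0 1) :=
      fun j hj => hKc.union _ q1 (m j false _ (pos_S1 Z 0 (e := (j, false)) hj)) (hpc j)
    have a2 : ∀ j : Fin 8, (j, false) ∈ S2 → IsPreconnected (K ∪ flow8 Z 0 j '' Icc 0 1) :=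
      fun j hj => hKc.union _ q2 (m j false _ (pos_S2 P.Z1' 0 (e := (j, false)) hj)) (hpc j)
    have a3 : ∀ j : Fin 8, (j, false) ∈ S3 → IsPreconnected (K ∪ flow8 Z 0 j '' Icc 0 1) :=
      fun j hj => hKc.union _ q3 (m j false _ (pos_S3 P.Z1 0 (e := (j, false)) hj)) (hpc j)
    fin_cases i
    · exact a0 0 (by decide)
    · exact a2 1 (by decide)
    · exact a0 2 (by decide)
    · exact a1 3 (by decide)
    · exact a0 4 (by decide)
    · exact a1 5 (by decide)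
    · exact a2 6 (by decide)
    · exact a3 7 (by decide)

theorem admissible : Admissible (net8 μ (-(1 / 20) * A (-1)) ((1 / 20) * A 1)) (flow8 Z 0) := by
  have h0 : (0 : ℝ) ∈ Ico (0 : ℝ) 1 := by simp
  have hsm : ∀ i, ContDiffOn ℝ ∞ (flow8 Z 0 i) (Icc 0 1) := fun i =>
    (P.smooth_flow i).comp (f := fun x : ℝ => ((0 : ℝ), x)) (by fun_prop) (fun x hx => ⟨h0, hx⟩)
  refine ⟨fun i => ⟨hsm i, fun x hx => P.regular h0 i hx⟩, P.connected, P.bc h0,
    fun e => ⟨?_, ?_⟩⟩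
  · intro _ hc
    have l1 : (0 : ℝ) < (1 - 0) / 10 := by norm_num
    rcases star_cases μ (-(1 / 20) * A (-1)) ((1 / 20) * A 1) e with
      ⟨h, -⟩ | ⟨h, -⟩ | ⟨h, -⟩ | ⟨h, -⟩ | ⟨h, -⟩
    · rw [h]
      refine span_top (P.cos_pos (mem_s zero_mem01)) ⟨(2, false), by simp [S0], ?_⟩
        ⟨(0, false), by simp [S0], ?_⟩
      · exact seg_nrm _ (Or.inl rfl) l1 zero_mem01
      · exact P.arc_nrm _ zero_mem01
    · rw [h]
      refine span_top (P.cos_pos (mem_s one_mem01)) ⟨(3, false), by simp [S1], ?_⟩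
        ⟨(0, true), by simp [S1], ?_⟩
      · exact seg_nrm _ (Or.inl rfl) l1 zero_mem01
      · exact P.arc_nrm _ one_mem01
    · rw [h]
      refine span_top (P.mirror'.cos_pos (mem_s zero_mem01)) ⟨(2, true), by simp [S2], ?_⟩
        ⟨(1, false), by simp [S2], ?_⟩
      · exact seg_nrm _ (Or.inl rfl) l1 one_mem01
      · exact P.mirror'.arc_nrm _ zero_mem01
    · rw [h]
      refine span_top (P.mirror'.cos_pos (mem_s one_mem01)) ⟨(3, true), by simp [S3], ?_⟩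
        ⟨(1, true), by simp [S3], ?_⟩
      · exact seg_nrm _ (Or.inl rfl) l1 one_mem01
      · exact P.mirror'.arc_nrm _ one_mem01
    · rw [h, Finset.card_singleton] at hc; omega
  · have key : ∀ (S : Finset (Fin 8 × Bool)) (v : ℝ),
        (net8 μ (-(1 / 20) * A (-1)) ((1 / 20) * A 1)).star e = S → (S.card = 1 → v = 0) →
        (∀ e' ∈ S, e'.1 = 0 → v = 1 / 20) → (∀ e' ∈ S, e'.1 = 1 → v = -(1 / 20)) →
        ∃ w : ℂ, ((net8 μ (-(1 / 20) * A (-1)) ((1 / 20) * A 1)).clamped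
            ((net8 μ (-(1 / 20) * A (-1)) ((1 / 20) * A 1)).vtx e) ∨
          ((net8 μ (-(1 / 20) * A (-1)) ((1 / 20) * A 1)).star e).card = 1 → w = 0) ∧
          ∀ e' ∈ (net8 μ (-(1 / 20) * A (-1)) ((1 / 20) * A 1)).star e,
            inner ℝ w (nrm (flow8 Z 0 e'.1) (pt e'.2)) =
              vel ((net8 μ (-(1 / 20) * A (-1)) ((1 / 20) * A 1)).weight e'.1) (flow8 Z 0 e'.1)
                (pt e'.2) := by
      intro S v hS hc ha hb
      refine ⟨(v : ℂ), ?_, fun e' he' => ?_⟩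
      · rintro (h | h)
        · exact h.elim
        · rw [hS] at h; rw [hc h]; simp
      · rw [hS] at he'
        exact P.inner_eq_vel _ _ h0 e'.1 (pt_mem _) v (ha e' he') (hb e' he')
    rcases star_cases μ (-(1 / 20) * A (-1)) ((1 / 20) * A 1) e with
      ⟨h, -⟩ | ⟨h, -⟩ | ⟨h, -⟩ | ⟨h, -⟩ | ⟨h, -, hi⟩
    · exact key S0 (1 / 20) h (fun hc => by rw [card_S0] at hc; omega) (fun _ _ _ => rfl)
        (fun e' he' h1 => absurd h1 (by revert e'; decide))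
    · exact key S1 (1 / 20) h (fun hc => by rw [card_S1] at hc; omega) (fun _ _ _ => rfl)
        (fun e' he' h1 => absurd h1 (by revert e'; decide))
    · exact key S2 (-(1 / 20)) h (fun hc => by rw [card_S2] at hc; omega)
        (fun e' he' h1 => absurd h1 (by revert e'; decide)) (fun _ _ _ => rfl)
    · exact key S3 (-(1 / 20)) h (fun hc => by rw [card_S3] at hc; omega)
        (fun e' he' h1 => absurd h1 (by revert e'; decide)) (fun _ _ _ => rfl)
    · refine key {e} 0 h (fun _ => rfl) (fun e' he' h1 => ?_) (fun e' he' h1 => ?_)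
      · rw [Finset.mem_singleton] at he'; subst he'; rw [h1] at hi; exact absurd hi (by decide)
      · rw [Finset.mem_singleton] at he'; subst he'; rw [h1] at hi; exact absurd hi (by decide)

end Prof

theorem len_tendsto (Z : ℝ → ℂ) : Tendsto (fun t => len (flow8 Z t 2)) (𝓝[<] 1) (𝓝 0) := by
  have e : (fun t => len (flow8 Z t 2)) = fun t : ℝ => |1 * ((1 - t) / 10)| := by
    funext t; rw [flow8_2, seg_len]
  rw [e]
  have hc : Continuous fun t : ℝ => |1 * ((1 - t) / 10)| := by fun_prop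
  have := hc.tendsto 1
  simp only [sub_self, zero_div, mul_zero, abs_zero] at this
  exact this.mono_left nhdsWithin_le_nhds

theorem not_extend (Z : ℝ → ℂ) (D : Net 8) {T' : ℝ} (hT : 1 < T') (γ' : ℝ → Fin 8 → ℝ → ℂ)
    (hf : IsFlow D T' γ')
    (h : ∀ t ∈ Ico (0 : ℝ) 1, ∀ i, γ' t i '' Icc 0 1 = flow8 Z t i '' Icc 0 1) : False := by
  have h1 : (1 : ℝ) ∈ Ico 0 T' := ⟨zero_le_one, hT⟩
  have hconst : ∀ x ∈ Icc (0 : ℝ) 1, γ' 1 2 x = Z (-1) := by
    intro x hx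
    have hc : ContinuousWithinAt (fun t => γ' t 2 x) (Ico 0 T') 1 :=
      ((hf.1 2).continuousOn.comp (f := fun t : ℝ => (t, x)) (by fun_prop)
        (fun t ht => ⟨ht, hx⟩)) 1 h1
    have hmem : Ico (0 : ℝ) 1 ∈ 𝓝[<] (1 : ℝ) := Ico_mem_nhdsLT zero_lt_one
    have hle : 𝓝[<] (1 : ℝ) ≤ 𝓝[Ico 0 T'] 1 := by
      rw [nhdsWithin_le_iff]
      exact mem_of_superset hmem (fun t ht => ⟨ht.1, ht.2.trans hT⟩)
    have t1 : Tendsto (fun t => γ' t 2 x) (𝓝[<] 1) (𝓝 (γ' 1 2 x)) := hc.tendsto.mono_left hle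
    have t2 : Tendsto (fun t => γ' t 2 x) (𝓝[<] 1) (𝓝 (Z (-1))) := by
      rw [tendsto_iff_norm_sub_tendsto_zero]
      have hz : Tendsto (fun t : ℝ => (1 - t) / 20) (𝓝[<] 1) (𝓝 0) := by
        have hc : Continuous fun t : ℝ => (1 - t) / 20 := by fun_prop
        have := hc.tendsto 1
        simp only [sub_self, zero_div] at this
        exact this.mono_left nhdsWithin_le_nhds
      refine squeeze_zero' (Eventually.of_forall fun _ => norm_nonneg _) ?_ hz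
      filter_upwards [hmem] with t ht
      have hm : γ' t 2 x ∈ flow8 Z t 2 '' Icc 0 1 := by
        rw [← h t ht 2]; exact ⟨x, hx, rfl⟩
      obtain ⟨y, hy, e⟩ := hm
      rw [← e, flow8_2, seg]
      have : pL t + Z (-1) + ((y * (1 * ((1 - t) / 10)) : ℝ) : ℂ) - Z (-1) =
          (((2 * y - 1) * ((1 - t) / 20) : ℝ) : ℂ) := by
        unfold pL; push_cast; ring
      rw [this, Complex.norm_real, Real.norm_eq_abs, abs_le]
      constructor <;> nlinarith [hy.1, hy.2, ht.2]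
    exact tendsto_nhds_unique t1 t2
  exact ((hf.2 1 h1).2 2 0 zero_mem01).1 (dW_eq zero_mem01 hconst (hasDerivAt_const _ _))

theorem main : ∃ (N : ℕ) (D : Net N) (T : ℝ) (γ : ℝ → Fin N → ℝ → ℂ),
    (∀ i, 0 < D.weight i) ∧
    (∀ e, ¬ D.clamped (D.vtx e) ∧ ((D.star e).card = 1 ∨ (D.star e).card = 3)) ∧
    0 < T ∧ Admissible D (γ 0) ∧ IsFlow D T γ ∧
    (¬ ∃ T' > T, ∃ γ' : ℝ → Fin N → ℝ → ℂ, IsFlow D T' γ' ∧
      ∀ t ∈ Ico 0 T, ∀ i, γ' t i '' Icc 0 1 = γ t i '' Icc 0 1) ∧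
    ∃ i, (∀ b, (D.star (i, b)).card = 3) ∧
      Tendsto (fun t => len (γ t i)) (𝓝[<] T) (𝓝 0) := by
  obtain ⟨φ, k, A, B, Z, μ, P⟩ := exists_prof
  refine ⟨8, net8 μ (-(1 / 20) * A (-1)) ((1 / 20) * A 1), 1, flow8 Z, ?_, ?_, one_pos,
    P.admissible, P.isFlow, ?_, 2, star_two _ _ _, len_tendsto Z⟩
  · intro i
    have h1 := P.A1
    have h2 := P.A1'
    fin_cases i
    · exact P.pos
    · exact P.pos
    · show 0 < 1 + -(1 / 20) * A (-1)
      linarith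
    · show 0 < 1 + (1 / 20) * A 1
      linarith
    · exact one_pos
    · exact one_pos
    · exact one_pos
    · exact one_pos
  · intro e
    refine ⟨fun h => h, ?_⟩
    rcases star_cases μ (-(1 / 20) * A (-1)) ((1 / 20) * A 1) e with
      ⟨h, -⟩ | ⟨h, -⟩ | ⟨h, -⟩ | ⟨h, -⟩ | ⟨h, -⟩
    · rw [h]; exact Or.inr card_S0
    · rw [h]; exact Or.inr card_S1
    · rw [h]; exact Or.inr card_S2
    · rw [h]; exact Or.inr card_S3
    · rw [h]; exact Or.inl (Finset.card_singleton _)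
  · rintro ⟨T', hT, γ', hf, h⟩
    exact not_extend Z _ hT γ' hf h

end Pool.Agent.MP_03af62_an

end
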